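import Pool.Agent.Zk72.NF.CPDefs
import Pool.Agent.Zk72.NS.Chn
import Pool.Agent.H974R2.Glue

/-!
# A coupling of two product laws (module CP2 for helper72)
-/

set_option autoImplicit false

namespace Pool.Agent.Zk55.NF

open H974 Finset
open Pool.Agent.Zk72.NS Pool.Agent.Zk72.NF

section gen
variable {E : Type*} [DecidableEq E]

theorem Ex_comm2 (p q : E → ℝ) (A B : Finset E) (f : Finset E → Finset E → ℝ) :
    Ex p A (fun a => Ex q B (fun b => f a b)) = Ex q B (fun b => Ex p A (fun a => f a b)) := by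
  unfold Ex
  simp only [Finset.mul_sum]
  rw [Finset.sum_comm]
  apply Finset.sum_congr rfl
  intro b _
  apply Finset.sum_congr rfl
  intro a _
  ring

/-- `A` on `T`, `W` outside of `T` -/
def mx (T W A : Finset E) : Finset E := (W \ T) ∪ (A ∩ T)

theorem mem_mx {T W A : Finset E} {x : E} :
    x ∈ mx T W A ↔ (x ∈ W ∧ x ∉ T) ∨ (x ∈ A ∧ x ∈ T) := by
  unfold mx
  rw [mem_union, mem_sdiff, mem_inter]

theorem mx_sub {S T W A : Finset E} (hW : W ⊆ S) (hA : A ⊆ S) : mx T W A ⊆ S := by
  intro x hx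
  rcases mem_mx.1 hx with h | h
  · exact hW h.1
  · exact hA h.1

theorem mix_off {b a : E → ℝ} {x : E} {S : Finset E} (hx : x ∉ S) (g : Finset E → ℝ) {T : Finset E}
    (hT : T ⊆ S) :
    Ex b (insert x S) (fun W => Ex a (insert x S) (fun A => g (mx T W A))) =
      b x * Ex b S (fun W => Ex a S (fun A => g (insert x (mx T W A)))) +
        (1 - b x) * Ex b S (fun W => Ex a S (fun A => g (mx T W A))) := by
  have hxT : x ∉ T := fun h => hx (hT h)
  rw [Ex_insert b hx]
  congr 2
  · apply Ex_congr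
    intro W hW
    rw [Ex_insert a hx]
    have h1 : Ex a S (fun A => g (mx T (insert x W) (insert x A))) =
        Ex a S (fun A => g (insert x (mx T W A))) := by
      apply Ex_congr
      intro A hA
      congr 1
      ext y
      simp only [mem_mx, mem_insert]
      by_cases hy : y = x
      · subst hy; simp [hxT]
      · simp [hy]
    have h2 : Ex a S (fun A => g (mx T (insert x W) A)) =
        Ex a S (fun A => g (insert x (mx T W A))) := by
      apply Ex_congr
      intro A hA
      congr 1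
      ext y
      simp only [mem_mx, mem_insert]
      by_cases hy : y = x
      · subst hy; simp [hxT]
      · simp [hy]
    rw [h1, h2]
    ring
  · apply Ex_congr
    intro W hW
    rw [Ex_insert a hx]
    have h1 : Ex a S (fun A => g (mx T W (insert x A))) =
        Ex a S (fun A => g (mx T W A)) := by
      apply Ex_congr
      intro A hA
      congr 1
      ext y
      simp only [mem_mx, mem_insert]
      by_cases hy : y = x
      · subst hy; simp [hxT]
      · simp [hy]
    rw [h1]
    ring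

theorem mix_on {b a : E → ℝ} {x : E} {S : Finset E} (hx : x ∉ S) (g : Finset E → ℝ) {T : Finset E}
    (hT : T ⊆ S) :
    Ex b (insert x S) (fun W => Ex a (insert x S) (fun A => g (mx (insert x T) W A))) =
      a x * Ex b S (fun W => Ex a S (fun A => g (insert x (mx T W A)))) +
        (1 - a x) * Ex b S (fun W => Ex a S (fun A => g (mx T W A))) := by
  have hxT : x ∉ T := fun h => hx (hT h)
  have key : ∀ W : Finset E, W ⊆ S → ∀ W' : Finset E, (W' = W ∨ W' = insert x W) →
      Ex a (insert x S) (fun A => g (mx (insert x T) W' A)) =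
        a x * Ex a S (fun A => g (insert x (mx T W A))) + (1 - a x) * Ex a S (fun A => g (mx T W A)) := by
    intro W hW W' hW'
    have hxW : x ∉ W := fun h => hx (hW h)
    rw [Ex_insert a hx]
    congr 2
    · apply Ex_congr
      intro A hA
      congr 1
      ext y
      simp only [mem_mx, mem_insert]
      by_cases hy : y = x
      · subst hy; simp
      · rcases hW' with h | h
        · subst h; simp [hy]
        · subst h; simp [hy]
    · apply Ex_congr
      intro A hA
      have hxA : x ∉ A := fun h => hx (hA h)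
      congr 1
      ext y
      simp only [mem_mx, mem_insert]
      by_cases hy : y = x
      · subst hy; simp [hxA, hxT, hxW]
      · rcases hW' with h | h
        · subst h; simp [hy]
        · subst h; simp [hy]
  rw [Ex_insert b hx]
  rw [Ex_congr (fun W hW => key W hW (insert x W) (Or.inr rfl)), Ex_congr (fun W hW => key W hW W (Or.inl rfl)),
    Ex_add, Ex_mul_left, Ex_mul_left]
  ring

/-- the law of the mixture -/
theorem mix (α b a z : E → ℝ) (S : Finset E) (hz : ∀ e ∈ S, z e = (1 - α e) * b e + α e * a e)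
    (g : Finset E → ℝ) :
    Ex α S (fun T => Ex b S (fun W => Ex a S (fun A => g (mx T W A)))) = Ex z S g := by
  induction S using Finset.induction_on generalizing g with
  | empty => simp [Ex_empty, mx]
  | insert x S hx ih =>
    have ih' := fun g => ih (fun e he => hz e (mem_insert_of_mem he)) g
    rw [Ex_insert α hx, Ex_insert z hx, Ex_congr (fun T hT => mix_on hx g hT),
      Ex_congr (fun T hT => mix_off hx g hT), Ex_add, Ex_add, Ex_mul_left, Ex_mul_left, Ex_mul_left,
      Ex_mul_left, ih' (fun F => g (insert x F)), ih' g, hz x (mem_insert_self x S)]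
    ring

/-- the sets -/
def out (T U B W A : Finset E) : Finset E := mx U B (mx T W A)

theorem out_sub {S T U B W A : Finset E} (hB : B ⊆ S) (hW : W ⊆ S) (hA : A ⊆ S) : out T U B W A ⊆ S :=
  mx_sub hB (mx_sub hW hA)

/-- the joint expectation -/
noncomputable def J (S : Finset E) (θ ε b a a' : E → ℝ) (g : Finset E → Finset E → ℝ) : ℝ :=
  Ex θ S fun T => Ex ε S fun U => Ex (fun _ => 1/2) S fun B => Ex b S fun W => Ex a S fun A =>
    Ex a' S fun A' => g (out T U B W A) (out T U B W A')

variable {S : Finset E} {θ ε b a a' p : E → ℝ}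

theorem J_congr {g g' : Finset E → Finset E → ℝ} (h : ∀ F ⊆ S, ∀ F' ⊆ S, g F F' = g' F F') :
    J S θ ε b a a' g = J S θ ε b a a' g' := by
  unfold J
  exact Ex_congr fun T hT => Ex_congr fun U hU => Ex_congr fun B hB => Ex_congr fun W hW =>
    Ex_congr fun A hA => Ex_congr fun A' hA' => h _ (out_sub hB hW hA) _ (out_sub hB hW hA')

theorem J_sum {ι : Type*} (I : Finset ι) (g : ι → Finset E → Finset E → ℝ) :
    ∑ i ∈ I, J S θ ε b a a' (g i) = J S θ ε b a a' (fun F F' => ∑ i ∈ I, g i F F') := by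
  unfold J
  simp only [Ex_sum]

theorem J_mul (c : ℝ) (g : Finset E → Finset E → ℝ) :
    J S θ ε b a a' g * c = J S θ ε b a a' (fun F F' => g F F' * c) := by
  unfold J
  simp only [Ex_mul_right]

theorem J_nonneg (hθ : Ok θ) (hε : Ok ε) (hb : Ok b) (ha : Ok a) (ha' : Ok a')
    {g : Finset E → Finset E → ℝ} (h : ∀ F F', 0 ≤ g F F') : 0 ≤ J S θ ε b a a' g := by
  unfold J
  exact Ex_nonneg hθ fun T _ => Ex_nonneg hε fun U _ => Ex_nonneg (fun _ => ⟨by norm_num, by norm_num⟩)
    fun B _ => Ex_nonneg hb fun W _ => Ex_nonneg ha fun A _ => Ex_nonneg ha' fun A' _ => h _ _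

theorem J_fst (hp : ∀ e ∈ S, p e = (1 - ε e) * (1/2) + ε e * ((1 - θ e) * b e + θ e * a e))
    (g : Finset E → ℝ) : J S θ ε b a a' (fun F _ => g F) = Ex p S g := by
  unfold J
  simp only [Ex_const]
  rw [Ex_comm2]
  rw [← mix ε (fun _ => 1/2) (fun e => (1 - θ e) * b e + θ e * a e) p S hp g]
  apply Ex_congr
  intro U _
  rw [Ex_comm2]
  apply Ex_congr
  intro B _
  exact mix θ b a _ S (fun e _ => rfl) (fun G => g (mx U B G))

theorem J_snd (hp : ∀ e ∈ S, p e = (1 - ε e) * (1/2) + ε e * ((1 - θ e) * b e + θ e * a' e))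
    (g : Finset E → ℝ) : J S θ ε b a a' (fun _ F => g F) = Ex p S g := by
  unfold J
  simp only [Ex_const]
  rw [Ex_comm2]
  rw [← mix ε (fun _ => 1/2) (fun e => (1 - θ e) * b e + θ e * a' e) p S hp g]
  apply Ex_congr
  intro U _
  rw [Ex_comm2]
  apply Ex_congr
  intro B _
  exact mix θ b a' _ S (fun e _ => rfl) (fun G => g (mx U B G))

theorem Ex_point (p : E → ℝ) {F : Finset E} (hF : F ⊆ S) :
    Ex p S (fun X => ind (X = F)) = (∏ e ∈ F, p e) * ∏ e ∈ S \ F, (1 - p e) := by
  unfold Ex
  rw [Finset.sum_eq_single F]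
  · beta_reduce
    rw [ind_of rfl, mul_one]
  · intro X _ hX
    beta_reduce
    rw [ind_not_of hX, mul_zero]
  · intro h
    exact absurd (mem_powerset.2 hF) h

omit [DecidableEq E] in
theorem sum_ind {F : Finset E} (hF : F ⊆ S) (P : Prop) (f : Finset E → ℝ) :
    ∑ X ∈ S.powerset, ind (P ∧ F = X) * f X = ind P * f F := by
  rw [Finset.sum_eq_single F]
  · rw [ind_congr (Q := P) ⟨fun h => h.1, fun h => ⟨h, rfl⟩⟩]
  · intro X _ hX
    rw [ind_not_of (fun h => hX h.2.symm), zero_mul]
  · intro h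
    exact absurd (mem_powerset.2 hF) h

end gen

theorem Btw_out {T U B W A : Finset Edg} : Btw U B (out T U B W A) := by
  rw [Btw_iff]
  intro x hx
  unfold out
  rw [mem_mx]
  simp [hx]

theorem Btw_out2 {T U B W A A' : Finset Edg} : Btw (U ∩ T) (out T U B W A) (out T U B W A') := by
  rw [Btw_iff]
  intro x hx
  unfold out
  rw [mem_mx, mem_mx, mem_mx, mem_mx]
  rw [mem_inter] at hx
  tauto

theorem t_CP2 : S_CP2 := by
  intro S ε θ p p' hε hε1 hθ hθ1 hpp
  obtain ⟨q, hq⟩ : ∃ q : Edg → ℝ, q = fun e => 1/2 + (p e - 1/2) / ε := ⟨_, rfl⟩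
  obtain ⟨q', hq'⟩ : ∃ q' : Edg → ℝ, q' = fun e => 1/2 + (p' e - 1/2) / ε := ⟨_, rfl⟩
  classical
  obtain ⟨a, ha⟩ : ∃ a : Edg → ℝ, a = fun e => if e ∈ S then 1/2 + (q e - q' e) / (2 * θ) else 1/2 :=
    ⟨_, rfl⟩
  obtain ⟨a', ha'⟩ : ∃ a' : Edg → ℝ, a' = fun e => if e ∈ S then 1/2 - (q e - q' e) / (2 * θ) else 1/2 :=
    ⟨_, rfl⟩
  obtain ⟨b, hb⟩ : ∃ b : Edg → ℝ, b = fun e => if e ∈ S then ((q e + q' e) / 2 - θ / 2) / (1 - θ)
      else 1/2 := ⟨_, rfl⟩
  have hbd : ∀ e ∈ S, |q e - 1/2| ≤ 1/4 ∧ |q' e - 1/2| ≤ 1/4 ∧ |q e - q' e| ≤ θ / 2 := by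
    intro e he
    obtain ⟨h1, h2, h3⟩ := hpp e he
    have e1 : q e - 1/2 = (p e - 1/2) / ε := by rw [hq]; ring
    have e2 : q' e - 1/2 = (p' e - 1/2) / ε := by rw [hq']; ring
    have e3 : q e - q' e = (p e - p' e) / ε := by rw [hq, hq']; field_simp; ring
    refine ⟨?_, ?_, ?_⟩
    · rw [e1, abs_div, abs_of_pos hε, div_le_iff₀ hε]; linarith
    · rw [e2, abs_div, abs_of_pos hε, div_le_iff₀ hε]; linarith
    · rw [e3, abs_div, abs_of_pos hε, div_le_iff₀ hε]; linarith
  have h1θ : 0 < 1 - θ := by linarith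
  have h2θ : 0 < 2 * θ := by linarith
  have okθ : Ok (fun _ : Edg => θ) := fun _ => ⟨hθ.le, by linarith⟩
  have okε : Ok (fun _ : Edg => ε) := fun _ => ⟨hε.le, hε1⟩
  have hr : ∀ e ∈ S, |(q e - q' e) / (2 * θ)| ≤ 1/4 := by
    intro e he
    rw [abs_div, abs_of_pos h2θ, div_le_iff₀ h2θ]
    linarith [(hbd e he).2.2]
  have oka : Ok a := by
    intro e
    rw [ha]
    by_cases he : e ∈ S
    · have := abs_le.1 (hr e he)
      simp only [he, if_true]
      constructor <;> linarith [this.1, this.2]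
    · simp only [he, if_false]
      norm_num
  have oka' : Ok a' := by
    intro e
    rw [ha']
    by_cases he : e ∈ S
    · have := abs_le.1 (hr e he)
      simp only [he, if_true]
      constructor <;> linarith [this.1, this.2]
    · simp only [he, if_false]
      norm_num
  have okb : Ok b := by
    intro e
    rw [hb]
    by_cases he : e ∈ S
    · obtain ⟨h1, h2, h3⟩ := hbd e he
      have h1' := abs_le.1 h1
      have h2' := abs_le.1 h2
      simp only [he, if_true]
      constructor
      · apply div_nonneg _ h1θ.le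
        linarith [h1'.1, h2'.1]
      · rw [div_le_one h1θ]
        linarith [h1'.2, h2'.2]
    · simp only [he, if_false]
      norm_num
  have hp1 : ∀ e ∈ S, p e = (1 - ε) * (1/2) + ε * ((1 - θ) * b e + θ * a e) := by
    intro e he
    rw [hb, ha]
    simp only [he, if_true]
    rw [mul_div_cancel₀ _ h1θ.ne']
    have e4 : θ * (1/2 + (q e - q' e) / (2 * θ)) = θ / 2 + (q e - q' e) / 2 := by
      field_simp
    rw [e4, hq, hq']
    field_simp
    ring
  have hp2 : ∀ e ∈ S, p' e = (1 - ε) * (1/2) + ε * ((1 - θ) * b e + θ * a' e) := by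
    intro e he
    rw [hb, ha']
    simp only [he, if_true]
    rw [mul_div_cancel₀ _ h1θ.ne']
    have e4 : θ * (1/2 - (q e - q' e) / (2 * θ)) = θ / 2 - (q e - q' e) / 2 := by
      field_simp
    rw [e4, hq, hq']
    field_simp
    ring
  refine ⟨fun F F' => J S (fun _ => θ) (fun _ => ε) b a a' (fun X Y => ind (X = F ∧ Y = F')), ?_, ?_,
    ?_, ?_⟩
  · intro F F'
    exact J_nonneg okθ okε okb oka oka' fun X Y => ind_nonneg _
  · intro F hF
    rw [J_sum]
    rw [J_congr (g' := fun X _ => ind (X = F)) (fun X _ Y hY => by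
      have := sum_ind hY (X = F) (fun _ => (1 : ℝ))
      simpa using this)]
    rw [J_fst (p := p) hp1, Ex_point p hF]
    rfl
  · intro F' hF'
    rw [J_sum]
    rw [J_congr (g' := fun _ Y => ind (Y = F')) (fun X hX Y _ => by
      have := sum_ind hX (Y = F') (fun _ => (1 : ℝ))
      rw [← mul_one (ind (Y = F')), ← this]
      refine Finset.sum_congr rfl fun F _ => ?_
      rw [mul_one]
      exact ind_congr and_comm)]
    rw [J_snd (p := p') hp2, Ex_point p' hF']
    rfl
  · intro A
    have h1 : ∑ F ∈ S.powerset, ∑ F' ∈ S.powerset,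
        J S (fun _ => θ) (fun _ => ε) b a a' (fun X Y => ind (X = F ∧ Y = F')) * ind (A F F') =
        J S (fun _ => θ) (fun _ => ε) b a a' (fun X Y => ind (A X Y)) := by
      simp only [J_mul, J_sum]
      apply J_congr
      intro X hX Y hY
      have h2 : ∀ F, ∑ F' ∈ S.powerset, ind (X = F ∧ Y = F') * ind (A F F') = ind (X = F) * ind (A F Y) :=
        fun F => sum_ind hY (X = F) (fun F' => ind (A F F'))
      simp only [h2]
      have h3 := sum_ind hX True (fun F => ind (A F Y))
      simp only [true_and] at h3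
      rw [h3, ind_of trivial, one_mul]
    rw [h1]
    unfold J Q2 Q H984N.P Pr
    refine Ex_mono okθ fun T _ => Ex_mono okε fun U _ => Ex_mono (fun _ => ⟨by norm_num, by norm_num⟩)
      fun B _ => ?_
    refine Ex_le_of_le okb fun W _ => Ex_le_of_le oka fun A₁ _ => Ex_le_of_le oka' fun A₂ _ => ?_
    exact ind_mono fun h => ⟨_, _, Btw_out, Btw_out2, h⟩

end Pool.Agent.Zk55.NF
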